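import Pool.Agent.Lib.MP_779bc2_co.L5Final

/-!
# MP_779bc2_co: multicolour Ramsey numbers with two long cycles

`Contains n m b c d H i` says that `H` contains the graph which is forbidden in the colour `i`; `ramsey n m b c d` is the Ramsey number
`r(C_n, C_m, K_{b_1,c_1}, …, K_{b_s,c_s}, C_{2d_1+1}, …, C_{2d_t+1})` and `oddRamsey d` is `r(≤[C])` (see `L1Stmt.lean`);
`Fval n m l = max {n + ⌈m/2⌉ + l - 2, m + ⌈n/2⌉ + l - 2, 2 (n + l - 1) if m is odd, 2 (m + l - 1) if n is odd}` (see `Defs.lean`).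
-/

set_option autoImplicit false

namespace Pool.Agent.Results.MP_779bc2_co.TwoLongCycles

open Pool.Agent.Lib.MP_779bc2_co

/-- For all fixed `[B]`, `[C]` there is `n0` such that for all `n, m ≥ n0`
`r(C_n, C_m, [B], [C]) = (r(≤[C]) - 1) F + 1`, where `F = Fval n m ℓ`, `ℓ = ∑ (b_k - 1)`. Moreover `r(≤[C]) = 2^t + 1` if all
`d_j ≥ 2^(t-1)`. -/
theorem result {s t : ℕ} (b c : Fin s → ℕ) (d : Fin t → ℕ) (hb : ∀ k, 1 ≤ b k)
    (hbc : ∀ k, b k ≤ c k) (hd : ∀ j, 1 ≤ d j) :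
    (∃ n0 : ℕ, ∀ n m : ℕ, n0 ≤ n → n0 ≤ m →
      ramsey n m b c d = (oddRamsey d - 1) * Fval n m (∑ k, (b k - 1)) + 1) ∧
    ((∀ j, 2 ^ (t - 1) ≤ d j) → oddRamsey d = 2 ^ t + 1) :=
  ⟨l5_main b c d hb hbc hd, fun h => l4_oddRamsey_eq d h⟩

end Pool.Agent.Results.MP_779bc2_co.TwoLongCycles
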